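import Mathlib
import Pool.Agent.TH115.GD.Defs
import Pool.Agent.TH115.ID.Defs
import Pool.Agent.X243.Sol.Main2

/-!
# The Tate conjecture at 2 over all solvable and all regular extensions, for all twists by constants of
# 100% of the elliptic surfaces with full level two structure

Let `k` be a number field. For polynomials `a`, `b` over `k` of degree at most `N` let `X` be the elliptic
surface over the projective line with the generic fibre

`E : y² = x (x - a) (x - b)`.

All its points of order two are rational. In general the geometric genus is `N / 2 - 1` for even `N`, and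
`(N - 1) / 2` for odd `N`.

Call `(a, b)` good if `a`, `b` and `a - b` are irreducible over `k` of degree `N`, `a` and `b` are coprime, and
for EVERY extension field `L` of `k` (of finite or infinite degree, algebraic or not) with a separable
closure `L'` the following holds.

(A) Suppose that the elements of `L` which are algebraic over `k` lie in a normal extension `M` of `k` in
`L'`, such that none of `a`, `b`, `a - b` splits into linear factors over `M`. Then for EVERY constant `δ ≠ 0`
of `L` the Tate conjecture for divisors at the prime 2 holds over `L` for the quadratic twist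
`y² = x (x - δ a) (x - δ b)` of `X`; moreover there is no nonzero Galois-invariant class in the 2-adic
Selmer group of this curve over `L'(t)`.

(B) The same holds if the elements of `L` which are algebraic over `k` can be expressed by radicals over
`k` (that is, lie in the smallest subfield of `L'` which contains `k` and is closed under taking roots).

For example `L` may be any finite extension of `k` with a solvable Galois closure; the infinite extension of
all numbers which can be expressed by radicals over `k`, and each subfield; any extension in which `k` is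
algebraically closed, like the function field of a geometrically integral variety over `k` (and `δ` any
function on it); or (by (A)) any finite extension of `k` whose Galois closure contains none of the splitting
fields of `a`, `b`, `a - b`.

Theorem. Let `N ≥ 5`.

(1) (Ordering by height.) 100% of the pairs `(a, b)` of integral polynomials of degree at most `N` are good:
the proportion of the good pairs among the pairs with all coefficients in `[-B, B]` tends to `1` as `B`
tends to infinity. The exceptional set depends neither on `L` nor on `δ`.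

(2) (Congruences.) Let `k₀` be a subfield of `k`. For every `η > 0` there is an ideal `M ≠ 0` of the ring of
integers `O` of `k₀` and a set of residue classes modulo `M` of pairs `(a, b)`, with proportion at
least `1 - η` among all residue classes, such that EVERY pair over `O` in one of these residue classes
is good (over `k`).

`TateAtTwo` is the statement about the Galois-invariant classes in the 2-adic Selmer group; as
`Br(X ⊗ L') = Ш(E / L'(t))` (Grothendieck), it is the Tate conjecture for divisors at the prime 2 on `X`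
over `L`.

The proof: (i) Frobenius elements at suitable primes show that the Galois groups over `k` of `a`, `b`,
`a - b` are the full symmetric groups; so over `M` they contain the alternating groups, over `L` the
polynomials stay irreducible, and `a`, `b` are not constants times norms from quadratic extensions of
`L`; (ii) a Frobenius element `s` at a prime modulo which `a` is a product of distinct linear factors, and
`b` has a nonzero square and a nonsquare among its values at the roots of `a`, fixes the roots of `a` and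
acts by different signs on the square roots of the values of `b` at two roots; the commutator of `s` with
an even permutation of order three lies over `M` and acts by different signs on two such square roots,
so no constant multiple of `b`, with a constant of `L`, is a square modulo `a` over `L`; (iii) then the second
descent leaves no class; (iv) a positive proportion of the residue classes modulo each prime has each of
these properties, and a sieve.
-/

namespace Pool.Agent.Results.MP_97f789_ag.AllTwistsAllFields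

open Polynomial Pool.Agent.TH115.GD NumberField
open Pool.Agent.X243.Tate (Zset box)
open Pool.Agent.X243.Sol (Fe7)
open scoped Classical

/-- The polynomial over `k` with the coefficients `c`. -/
noncomputable def poly {R : Type} [CommRing R] (k : Type) [Field k] [Algebra R k] {r : ℕ}
    (c : Fin r → R) : k[X] :=
  ∑ j : Fin r, C (algebraMap R k (c j)) * X ^ (j : ℕ)

/-- The Tate conjecture at 2 for `y² = x (x - δ a) (x - δ b)` over `L` (`L'` is a separable closure of `L`,
`K = L(t)`, `F = L'(t)`) for all the constants `δ ≠ 0` of `L`, for the polynomials `a`, `b` over the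
subfield `k` of `L`; moreover the Galois-invariant classes in `V₂ Sel(E_δ / F)` are generated by no
element, so they are zero. -/
def TwistsOver {k : Type} [Field k] (a b : k[X]) (L L' K F : Type) [Field L] [Field L'] [Algebra L L']
    [Field K] [Algebra L[X] K] [Field F] [Algebra L'[X] F] [IsFractionRing L'[X] F] [Algebra K F]
    [Algebra k L] : Prop :=
  ∀ δ : L, δ ≠ 0 →
    TateAtTwo (F := F) L' (crv (algebraMap L[X] K (C δ * a.map (algebraMap k L)))
      (algebraMap L[X] K (C δ * b.map (algebraMap k L)))) ∧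
    GeneratedBy (F := F) L' (crv (algebraMap L[X] K (C δ * a.map (algebraMap k L)))
      (algebraMap L[X] K (C δ * b.map (algebraMap k L)))) 0

/-- The good pairs. -/
structure Good (k : Type) [Field k] (N : ℕ) (a b : k[X]) : Prop where
  irrA : Irreducible a ∧ a.natDegree = N
  irrB : Irreducible b ∧ b.natDegree = N
  irrC : Irreducible (a - b) ∧ (a - b).natDegree = N
  cop : IsCoprime a b
  tate : ∀ (L L' K F : Type) [Field L] [Field L'] [Algebra L L'] [Field K] [Algebra L[X] K]
    [Field F] [Algebra L'[X] F] [IsFractionRing L'[X] F] [Algebra K F]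
    [Algebra k L] [Algebra k L'] [IsScalarTower k L L'], IsTower L L' K F →
      ∀ M : IntermediateField k L', Normal k M →
        (∀ x : L, IsAlgebraic k x → algebraMap L L' x ∈ M) →
        ¬ (a.map (algebraMap k M)).Splits → ¬ (b.map (algebraMap k M)).Splits →
        ¬ ((a - b).map (algebraMap k M)).Splits → TwistsOver a b L L' K F
  rad : ∀ (L L' K F : Type) [Field L] [Field L'] [Algebra L L'] [Field K] [Algebra L[X] K]
    [Field F] [Algebra L'[X] F] [IsFractionRing L'[X] F] [Algebra K F]
    [Algebra k L] [Algebra k L'] [IsScalarTower k L L'], IsTower L L' K F →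
      (∀ x : L, IsAlgebraic k x → algebraMap L L' x ∈ solvableByRad k L') →
        TwistsOver a b L L' K F

theorem good_of {A k : Type} [Field A] [NumberField A] [Field k] [NumberField k]
    [Algebra A k] {N B : ℕ} (hN : 5 ≤ N) {y : Fin (N + 1) ⊕ Fin (N + 1) → 𝓞 A}
    (h : ∀ s : Option (Fin 3 × Fin 3), ∃ p ∈ Zset A k B,
      (fun j => Ideal.Quotient.mk p.asIdeal (y j)) ∈ Fe7 N s (𝓞 A ⧸ p.asIdeal)) :
    Good k N (poly k (y ∘ Sum.inl)) (poly k (y ∘ Sum.inr)) := by
  obtain ⟨⟨h1, f1⟩, ⟨h2, f2⟩, ⟨h3, f3⟩, hs⟩ := Pool.Agent.X243.Sol.fl_good hN h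
    (poly k (y ∘ Sum.inl)) (poly k (y ∘ Sum.inr))
    (Pool.Agent.X243.Tate.bF_map (algebraMap (𝓞 A) k) (y ∘ Sum.inl)).symm
    (Pool.Agent.X243.Tate.bF_map (algebraMap (𝓞 A) k) (y ∘ Sum.inr)).symm
  refine ⟨h1, h2, h3, ?_, ?_, ?_⟩
  · exact Pool.Agent.X243.Sol.cop_of hN h1 f1 hs
  · intro L L' K F _ _ _ _ _ _ _ _ _ _ _ _ hT M hMn hM ha hb hc
    exact Pool.Agent.X243.Sol.fl_ext hN h1 h2 h3 f1 f2 f3 hs hT M hMn hM ha hb hc
  · intro L L' K F _ _ _ _ _ _ _ _ _ _ _ _ hT hM
    exact Pool.Agent.X243.Sol.fl_rad hN h1 h2 h3 f1 f2 f3 hs hT hM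

theorem result :
    (∀ (k : Type) [Field k] [NumberField k] (N : ℕ), 5 ≤ N →
        Filter.Tendsto (fun B : ℕ =>
          (({z : (Fin (N + 1) → ℤ) × (Fin (N + 1) → ℤ) |
            (∀ j, |z.1 j| ≤ B) ∧ (∀ j, |z.2 j| ≤ B) ∧
              Good k N (poly k z.1) (poly k z.2)}.ncard : ℕ) : ℝ) /
          (({z : (Fin (N + 1) → ℤ) × (Fin (N + 1) → ℤ) |
            (∀ j, |z.1 j| ≤ B) ∧ (∀ j, |z.2 j| ≤ B)}.ncard : ℕ) : ℝ)) Filter.atTop (nhds 1)) ∧
    (∀ (k₀ k : Type) [Field k₀] [NumberField k₀] [Field k] [NumberField k] [Algebra k₀ k]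
      (N : ℕ), 5 ≤ N → ∀ η : ℝ, 0 < η →
        ∃ M : Ideal (𝓞 k₀), M ≠ ⊥ ∧
          (1 - η) * (Nat.card ((Fin (N + 1) → 𝓞 k₀ ⧸ M) × (Fin (N + 1) → 𝓞 k₀ ⧸ M)) : ℝ) ≤
          (({z : (Fin (N + 1) → 𝓞 k₀ ⧸ M) × (Fin (N + 1) → 𝓞 k₀ ⧸ M) |
            ∀ (α : Fin (N + 1) → 𝓞 k₀) (β : Fin (N + 1) → 𝓞 k₀),
              (∀ j, Ideal.Quotient.mk M (α j) = z.1 j) →
              (∀ j, Ideal.Quotient.mk M (β j) = z.2 j) →
                Good k N (poly k α) (poly k β)}.ncard : ℕ) : ℝ)) := by
  constructor
  · intro k _ _ N hN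
    have key := Pool.Agent.X243.Tate.box_dens (ι := Fin (N + 1) ⊕ Fin (N + 1))
      {y | Good k N (poly k (y ∘ Sum.inl)) (poly k (y ∘ Sum.inr))} (by
        intro η hη
        obtain ⟨M, hM, hd⟩ := Pool.Agent.X243.Sol.dens_seven ℚ k (by omega : 3 ≤ N) η hη
        have hfin : Finite (𝓞 ℚ ⧸ M) := Ideal.finiteQuotientOfFreeOfNeBot _ hM
        obtain ⟨T, hTdef⟩ : ∃ T : Set (Fin (N + 1) ⊕ Fin (N + 1) → 𝓞 ℚ ⧸ M),
            T = {x : Fin (N + 1) ⊕ Fin (N + 1) → 𝓞 ℚ ⧸ M | ∀ s : Option (Fin 3 × Fin 3),
              ∃ p ∈ Zset ℚ k (2 * N + 2),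
              ∀ y : Fin (N + 1) ⊕ Fin (N + 1) → 𝓞 ℚ,
                (∀ j, Ideal.Quotient.mk M (y j) = x j) →
                (fun j => Ideal.Quotient.mk p.asIdeal (y j)) ∈
                  Fe7 N s (𝓞 ℚ ⧸ p.asIdeal)} := ⟨_, rfl⟩
        rw [← hTdef] at hd
        refine ⟨𝓞 ℚ ⧸ M, inferInstance, hfin, ?_, Tᶜ, ?_, ?_⟩
        rotate_left 1
        · have h1 := Set.ncard_add_ncard_compl T
          rw [Nat.card_fun, Nat.card_eq_fintype_card (α := Fin (N + 1) ⊕ Fin (N + 1))] at h1
          have h2 := congrArg (Nat.cast (R := ℝ)) h1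
          rw [Nat.cast_add, Nat.cast_pow] at h2
          linarith
        · intro y hy hgood
          apply hy
          rw [hTdef] at hgood
          have e1 : ∀ t : ℤ, algebraMap (𝓞 ℚ) k (t : 𝓞 ℚ) = algebraMap ℤ k t := by
            intro t
            rw [map_intCast, eq_intCast]
          have h3 := good_of (A := ℚ) (k := k) hN (y := fun j => ((y j : ℤ) : 𝓞 ℚ))
            (B := 2 * N + 2) (fun s => by
              obtain ⟨p, hp, hp'⟩ := hgood s
              exact ⟨p, hp, hp' _ (fun j => map_intCast _ _)⟩)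
          have e2 : (poly k ((fun j => ((y j : ℤ) : 𝓞 ℚ)) ∘ Sum.inl) : k[X]) =
              poly k (y ∘ (Sum.inl : Fin (N + 1) → Fin (N + 1) ⊕ Fin (N + 1))) := by
            refine Finset.sum_congr rfl fun j _ => ?_
            rw [Function.comp, Function.comp, e1]
          have e3 : (poly k ((fun j => ((y j : ℤ) : 𝓞 ℚ)) ∘ Sum.inr) : k[X]) =
              poly k (y ∘ (Sum.inr : Fin (N + 1) → Fin (N + 1) ⊕ Fin (N + 1))) := by
            refine Finset.sum_congr rfl fun j _ => ?_
            rw [Function.comp, Function.comp, e1]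
          rw [e2, e3] at h3
          exact h3
        · intro z
          obtain ⟨x, rfl⟩ := Ideal.Quotient.mk_surjective z
          refine ⟨Rat.ringOfIntegersEquiv x, ?_⟩
          have h4 : ((Rat.ringOfIntegersEquiv x : ℤ) : 𝓞 ℚ) = x := by
            apply Rat.ringOfIntegersEquiv.injective
            rw [map_intCast, Int.cast_id]
          rw [eq_intCast, ← map_intCast (Ideal.Quotient.mk M), h4])
    have hE : Function.Injective (fun z : (Fin (N + 1) → ℤ) × (Fin (N + 1) → ℤ) =>
        Sum.elim z.1 z.2) := by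
      rintro ⟨a, b⟩ ⟨a', b'⟩ h
      exact Prod.ext (funext fun j => congrFun h (Sum.inl j)) (funext fun j => congrFun h (Sum.inr j))
    have hsplit : ∀ B : ℕ, ∀ z : (Fin (N + 1) → ℤ) × (Fin (N + 1) → ℤ),
        Sum.elim z.1 z.2 ∈ box (Fin (N + 1) ⊕ Fin (N + 1)) B ↔
          (∀ j, |z.1 j| ≤ B) ∧ (∀ j, |z.2 j| ≤ B) := by
      intro B z
      constructor
      · intro h
        exact ⟨fun j => h (Sum.inl j), fun j => h (Sum.inr j)⟩
      · rintro ⟨h1, h2⟩ (j | j)
        · exact h1 j
        · exact h2 j
    have hsurj : ∀ y : Fin (N + 1) ⊕ Fin (N + 1) → ℤ, ∃ z : (Fin (N + 1) → ℤ) × (Fin (N + 1) → ℤ),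
        Sum.elim z.1 z.2 = y := fun y => ⟨(y ∘ Sum.inl, y ∘ Sum.inr), Sum.elim_comp_inl_inr y⟩
    refine key.congr fun B => ?_
    congr 2
    · rw [← Set.ncard_image_of_injective _ hE]
      congr 1
      ext y
      constructor
      · rintro ⟨h1, h2⟩
        obtain ⟨z, rfl⟩ := hsurj y
        exact ⟨z, ⟨((hsplit B z).1 h1).1, ((hsplit B z).1 h1).2, h2⟩, rfl⟩
      · rintro ⟨z, ⟨h1, h2, h3⟩, rfl⟩
        exact ⟨(hsplit B z).2 ⟨h1, h2⟩, h3⟩
    · rw [← Set.ncard_image_of_injective _ hE]
      congr 1
      ext y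
      constructor
      · intro h1
        obtain ⟨z, rfl⟩ := hsurj y
        exact ⟨z, (hsplit B z).1 h1, rfl⟩
      · rintro ⟨z, h1, rfl⟩
        exact (hsplit B z).2 h1
  · intro k₀ k _ _ _ _ _ N hN η hη
    obtain ⟨M, hM, hd⟩ := Pool.Agent.X243.Sol.dens_seven k₀ k (by omega : 3 ≤ N) η hη
    have hfin : Finite (𝓞 k₀ ⧸ M) := Ideal.finiteQuotientOfFreeOfNeBot _ hM
    refine ⟨M, hM, ?_⟩
    have hE : Function.Injective (fun z : (Fin (N + 1) → 𝓞 k₀ ⧸ M) × (Fin (N + 1) → 𝓞 k₀ ⧸ M) =>
        Sum.elim z.1 z.2) := by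
      rintro ⟨a, b⟩ ⟨a', b'⟩ h
      exact Prod.ext (funext fun j => congrFun h (Sum.inl j)) (funext fun j => congrFun h (Sum.inr j))
    have hc : (Nat.card ((Fin (N + 1) → 𝓞 k₀ ⧸ M) × (Fin (N + 1) → 𝓞 k₀ ⧸ M)) : ℝ) =
        (Nat.card (𝓞 k₀ ⧸ M) : ℝ) ^ (Fintype.card (Fin (N + 1) ⊕ Fin (N + 1))) := by
      rw [Nat.card_prod, Nat.card_fun, Fintype.card_sum, Fintype.card_fin, Nat.card_fin,
        pow_add _ (N + 1) (N + 1)]
      push_cast
      rfl
    rw [hc]
    refine hd.trans ?_
    have h1 := Set.ncard_image_of_injective {z : (Fin (N + 1) → 𝓞 k₀ ⧸ M) × (Fin (N + 1) → 𝓞 k₀ ⧸ M) |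
            ∀ (α : Fin (N + 1) → 𝓞 k₀) (β : Fin (N + 1) → 𝓞 k₀),
              (∀ j, Ideal.Quotient.mk M (α j) = z.1 j) →
              (∀ j, Ideal.Quotient.mk M (β j) = z.2 j) →
                Good k N (poly k α) (poly k β)} hE
    rw [← h1]
    have h2 : ∀ S T : Set (Fin (N + 1) ⊕ Fin (N + 1) → 𝓞 k₀ ⧸ M), S ⊆ T →
        ((S.ncard : ℕ) : ℝ) ≤ ((T.ncard : ℕ) : ℝ) := fun S T h => by
      exact_mod_cast Set.ncard_le_ncard h (Set.toFinite _)
    apply h2
    intro x hx
    refine ⟨(x ∘ Sum.inl, x ∘ Sum.inr), ?_, Sum.elim_comp_inl_inr x⟩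
    intro α β hα hβ
    have h3 := good_of (A := k₀) (k := k) hN (y := Sum.elim α β) (B := 2 * N + 2) (fun s => by
      obtain ⟨p, hp, hp'⟩ := hx s
      refine ⟨p, hp, hp' _ ?_⟩
      rintro (j | j)
      · exact hα j
      · exact hβ j)
    exact h3

end Pool.Agent.Results.MP_97f789_ag.AllTwistsAllFields
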