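import Pool.Agent.X261.AA.Nf

/-!
The Tate conjecture at `p` for almost all the twists of the surfaces `w ^ q = f(x) - t` over number
fields. The definitions of the Jacobian and of the statement of the conjecture are in
`Pool.Agent.Y160.SL.Jac`.
-/

set_option autoImplicit false

open Polynomial IsDedekindDomain NumberField
open scoped Classical

namespace Pool.Agent.Results.MP_97f789_ag.AlmostAllSuperellipticTwists

open Pool.Agent.TH115.GD (IsTower)
open Pool.Agent.Y160.SL (Jac TateAt)

section defs

variable {k : Type} [Field k]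

/-- The polynomial `D ^ n (f(x / D) - t)` in `x` over `K = k(t)`, where `n` is the degree of `f`. The
surface `w ^ q = D ^ n (f(x / D) - t)` over the `t`-line is the twist of the surface `w ^ q = f(x) - t` by
`D(t) ^ n`. For `q = 2` and odd `n` it is isomorphic to `D(t) w ^ 2 = f(x) - t`. -/
noncomputable def twist (K : Type) [Field K] [Algebra k[X] K] (f D : k[X]) : K[X] :=
  ((f.map C - C X : k[X][X]).scaleRoots D).map (algebraMap k[X] K)

/-- `D` is a product of inert primes: `P(f(x))` is irreducible over `k` for all the irreducible factors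
`P(t)` of `D`. -/
def ProductOfInert (f D : k[X]) : Prop :=
  D ≠ 0 ∧ ∀ P : k[X], Irreducible P → P ∣ D → Irreducible (P.comp f)

/-- The conclusions for `(f, D)`. Let `k'` be a finite extension of `k` of degree prime to the degree of
`f` and to the degrees of the irreducible factors of `D`, with separable closure `kb`; `K = k'(t)`,
`F = kb(t)`. Let `q = p ^ (s + 1)` be a power of a prime `p` not dividing the degree `n` of `f` such that
`k'` contains the `q`-th roots of unity, and `D' ≠ 0` a polynomial over `k'` all the prime factors of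
which divide `D`. Then the Tate conjecture at `p` holds over `k'` for the surface
`w ^ q = D' ^ n (f(x / D') - t)`, and `J(K) = p ^ m J(K)` for all `m`, for the Jacobian `J` of the generic
fibre. -/
def TateOverExtensions (f D : k[X]) : Prop :=
  ∀ (k' kb K F : Type) [Field k'] [Algebra k k'] [FiniteDimensional k k'] [Field kb] [Algebra k' kb]
    [Field K] [Algebra k'[X] K] [IsFractionRing k'[X] K] [Field F] [Algebra kb[X] F]
    [IsFractionRing kb[X] F] [Algebra K F], IsTower k' kb K F →
    (∀ P : k[X], Irreducible P → P ∣ D →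
      (Module.finrank k k').Coprime (P.natDegree * f.natDegree)) →
    ∀ (p s : ℕ) (ζ : k'), p.Prime → p.Coprime f.natDegree → IsPrimitiveRoot ζ (p ^ (s + 1)) →
    ∀ D' : k'[X], D' ≠ 0 →
      (∀ Q : k'[X], Irreducible Q → Q ∣ D' → Q ∣ D.map (algebraMap k k')) →
      TateAt (F := F) p (p ^ (s + 1)) kb (twist K (f.map (algebraMap k k')) D') ∧
      ∀ (m : ℕ) (x : Jac (p ^ (s + 1)) (twist K (f.map (algebraMap k k')) D') K),
        ∃ y : Jac (p ^ (s + 1)) (twist K (f.map (algebraMap k k')) D') K, x = p ^ m • y

/-- The residue classes of the monic polynomials of degree `N` modulo the product of the primes in the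
finite set `T`: the residues of the coefficients. -/
abbrev Classes (k : Type) [Field k] [NumberField k] (N : ℕ) (T : Finset (HeightOneSpectrum (𝓞 k))) :
    Type := ∀ v : T, Fin N → 𝓞 k ⧸ v.1.asIdeal

/-- `A` holds for all the monic polynomials of degree `N` over the ring of integers in the residue class
`x`. -/
def HoldsOn {k : Type} [Field k] [NumberField k] {N : ℕ} {T : Finset (HeightOneSpectrum (𝓞 k))}
    (x : Classes k N T) (A : (𝓞 k)[X] → Prop) : Prop :=
  ∀ P : (𝓞 k)[X], P.Monic → P.natDegree = N →
    (∀ (v : T) (i : Fin N), Ideal.Quotient.mk v.1.asIdeal (P.coeff i) = x v i) → A P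

end defs

theorem key {k : Type} [Field k] {f : k[X]} (hf : f.Monic) (hf' : derivative f ≠ 0) {D : k[X]}
    (hD : ProductOfInert f D) : TateOverExtensions f D := by
  intro k' kb K F _ _ _ _ _ _ _ _ _ _ _ _ hT hc p s ζ hp hpn hζ D' hD' hdd
  have hder : derivative (f.map (algebraMap k k')) ≠ 0 := by
    rw [derivative_map]
    exact (Polynomial.map_ne_zero_iff (algebraMap k k').injective).2 hf'
  have h := Pool.Agent.X261.TS.lineS hT hp hζ (hf.map (algebraMap k k'))
    (by rw [hf.natDegree_map]; exact hpn) hder hD' fun Q hQ hQd =>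
      Pool.Agent.X261.AA.inert_ext hD.1 hD.2 hc hQ (hdd Q hQ hQd)
  exact ⟨h.tate, Pool.Agent.X261.TS.divisible h.basis⟩

/-- **The Tate conjecture at `p` for almost all twists.** Let `k` be a number field.

1. Let `f` be a monic polynomial over `k` of degree `n > 0`, and `D` a product of inert primes. Then
the Tate conjecture at `p` holds over `k'` for the surface `w ^ q = D' ^ n (f(x / D') - t)`, for all
`k'`, `p`, `q` and `D'` as in `TateOverExtensions`.

2. Let `f` be a monic cubic polynomial over the ring of integers of `k` which is not of the form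
`(x - a) ^ 3 + b`. Then for every `N ≥ 1` and `η > 0` there is a finite set `T` of primes of `k` such that
all the monic polynomials `P(t)` of degree `N` over the ring of integers in a proportion of at least
`1 - η` of the residue classes modulo the primes of `T` are inert, and so `P`, and every product of
such polynomials, satisfies the conclusion of 1. -/
theorem result (k : Type) [Field k] [NumberField k] :
    (∀ f : k[X], f.Monic → 0 < f.natDegree → ∀ D : k[X], ProductOfInert f D →
      TateOverExtensions f D) ∧
    ∀ f : (𝓞 k)[X], f.Monic → f.natDegree = 3 → f.coeff 2 ^ 2 ≠ 3 * f.coeff 1 →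
      ∀ N : ℕ, 0 < N → ∀ η : ℝ, 0 < η → ∃ T : Finset (HeightOneSpectrum (𝓞 k)),
        (1 - η) * Nat.card (Classes k N T) ≤ Nat.card {x : Classes k N T //
          HoldsOn x fun P => Irreducible (P.map (algebraMap (𝓞 k) k)) ∧
            ProductOfInert (f.map (algebraMap (𝓞 k) k)) (P.map (algebraMap (𝓞 k) k)) ∧
            TateOverExtensions (f.map (algebraMap (𝓞 k) k)) (P.map (algebraMap (𝓞 k) k))} := by
  have hder : ∀ f : k[X], 0 < f.natDegree → derivative f ≠ 0 := by
    intro f hf h
    have h1 := derivative_eq_zero.1 h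
    omega
  refine ⟨fun f hf hn D hD => key hf (hder f hn) hD, fun f hf hd hg N hN η hη => ?_⟩
  obtain ⟨T, hT⟩ := Pool.Agent.X261.AA.almost_all hf hd hg hN hη
  haveI : ∀ v : T, Finite (𝓞 k ⧸ v.1.asIdeal) := fun v => Pool.Agent.X261.AA.finite_quot v.1
  haveI : Finite (Classes k N T) := inferInstance
  refine ⟨T, hT.trans ?_⟩
  have hle : Nat.card {x : ∀ v : T, Fin N → 𝓞 k ⧸ v.1.asIdeal // ∀ P : (𝓞 k)[X], P.Monic →
      P.natDegree = N → (∀ (v : T) (i : Fin N), Ideal.Quotient.mk v.1.asIdeal (P.coeff i) = x v i) →
      Irreducible ((P.map (algebraMap (𝓞 k) k)).comp (f.map (algebraMap (𝓞 k) k)))} ≤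
      Nat.card {x : Classes k N T //
          HoldsOn x fun P => Irreducible (P.map (algebraMap (𝓞 k) k)) ∧
            ProductOfInert (f.map (algebraMap (𝓞 k) k)) (P.map (algebraMap (𝓞 k) k)) ∧
            TateOverExtensions (f.map (algebraMap (𝓞 k) k)) (P.map (algebraMap (𝓞 k) k))} := by
    refine Nat.card_le_card_of_injective (fun x => ⟨x.1, fun P hP hPN hPx => ?_⟩) ?_
    · have h1 := x.2 P hP hPN hPx
      have hdk : (f.map (algebraMap (𝓞 k) k)).natDegree = 3 := by
        rw [hf.natDegree_map]
        exact hd
      have h2 := Pool.Agent.X261.AA.irr_of_comp (by omega) h1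
      have h3 : ProductOfInert (f.map (algebraMap (𝓞 k) k)) (P.map (algebraMap (𝓞 k) k)) := by
        refine ⟨h2.ne_zero, fun Q hQ hQP => ?_⟩
        obtain ⟨w, hw⟩ := hQ.associated_of_dvd h2 hQP
        have h6 : Associated (Q.comp (f.map (algebraMap (𝓞 k) k)))
            ((P.map (algebraMap (𝓞 k) k)).comp (f.map (algebraMap (𝓞 k) k))) := by
          refine ⟨Units.map (compRingHom (f.map (algebraMap (𝓞 k) k)) : k[X] →* k[X]) w, ?_⟩
          show Q.comp _ * (w : k[X]).comp _ = _
          rw [← mul_comp, hw]
        exact h6.irreducible_iff.2 h1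
      exact ⟨h2, h3, key (hf.map _) (hder _ (by omega)) h3⟩
    · intro x y hxy
      exact Subtype.ext (Subtype.mk.inj hxy)
  exact_mod_cast hle

end Pool.Agent.Results.MP_97f789_ag.AlmostAllSuperellipticTwists
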