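import Pool.Agent.H313.GE.Pts

/-!
# Divisors on cyclic coverings of surfaces over number fields: one prime

Let `K₀` be a number field, `𝒵` a smooth projective geometrically connected surface over `K₀`, `N` a
positive integer, and `Φ` a form over `K₀` whose degree is positive and divisible by `N` and which
defines a smooth curve on `𝒵`. For `w₀` in the multiplicative group of `K₀` let
`𝒳 : w ^ N = w₀ Φ` be the cyclic covering of `𝒵` of degree `N`.

Let `𝔭` be a prime of `K₀` with residue field `k`, with `q` elements, such that `N` divides `q - 1`,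
`w₀` is a unit at `𝔭`, and the reductions `Z : G i = 0` of `𝒵` and `B = Z ∩ {F = 0}` of the branch curve
are smooth. Let `λ` be a prime number different from the characteristic of `k`, `E` an algebraic closure
of the field of `λ`-adic numbers, and `V = H ^ 2 (𝒳) / H ^ 2 (𝒵)` the representation of the absolute
Galois group of `K₀` over `E`. It is unramified at `𝔭`, and a Frobenius element `g` at `𝔭` has the
characteristic polynomial on `V` whose reciprocal zeros are those of the polynomial `P_v` of the
reduction `X_v : w ^ N = v F` of `𝒳` (`IsCoverPolynomial`): if `N = n ℓ ^ a`, one can take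
`v ^ n F` for `v F` by changing `F`. The cyclotomic character `κ` has the value `q` at `g` (geometric
Frobenius, `κ` the inverse of the cyclotomic character of `λ`).
-/

set_option autoImplicit false
set_option linter.all false
set_option maxHeartbeats 4000000

open Polynomial NumberField Module

namespace Pool.Agent.Results.MP_97f789_ag.CyclicCoveringsOnePrime

open Pool.Agent.H313.GE.Pts

/-- The subspace of the vectors `x` with `ρ h x = κ(h) x` for all `h` in the subgroup `U`: the classes
which are fixed by `U` after a Tate twist. -/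
def tateClasses {E V G : Type} [Field E] [AddCommGroup V] [Module E V] [Group G]
    (ρ : G →* (V →ₗ[E] V)) (κ : G →* E) (U : Subgroup G) : Submodule E V :=
  Pool.Agent.H313.GE.chiSub ρ κ U

/-- The polynomial `A` over the integers is the product of the `1 - x T`, where `x` runs through the
eigenvalues of the endomorphism `φ`, with their multiplicities. -/
def IsFrobeniusPolynomial {E V : Type} [Field E] [AddCommGroup V] [Module E V]
    [FiniteDimensional E V] (φ : V →ₗ[E] V) (A : ℤ[X]) : Prop :=
  A.map (Int.castRingHom E) = (φ.charpoly.roots.map fun x => 1 - C x * X).prod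

/-- **The Tate classes on cyclic coverings over number fields, from one prime.**

Let `ℓ` be a prime, `n` prime to `ℓ`, `N = n ℓ ^ a`, `a > 0`. Let the quotient `L₁ / L₂` of the zeta
functions of `B` and `Z` be congruent modulo `ℓ` to the product of the cyclotomic polynomials `Φ_m` for
`m` in `t₁` and of `H₁`, let the polynomial `P` of the covering `w ^ n = F` of `Z` be congruent to the
product of the `Φ_m` for `m` in `t₂` and of `H₂` (for `n = 1`: `P = 1` and `t₂` is empty), and let no
`Φ_m` with `m` prime to `ℓ` divide `H₁ H₂` modulo `ℓ`. Then for every subgroup `U` of finite index, that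
is, for every finite extension `K'` of `K₀`, the space of the classes in `V(1)` which are fixed by the
Galois group of `K'` has a dimension of at most `(ℓ ^ a - 1) ∑ φ(m) + ℓ ^ a ∑ φ(m)` (sums over `t₁` and
`t₂`).

Consequences. The Picard number of `𝒳` over an algebraic closure is at most that of `𝒵` plus this
number. If the number is zero, then for every finite extension `K'` of `K₀` and every `w₀` the map `C ^ 1`
is an isomorphism for `𝒳` over `K'`, for all primes `λ`, if and only if it is for `𝒵`; and in general
this is true if the Picard number of `𝒳` over `K'` is that of `𝒵` plus the number. (The number is the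
same for all `w₀`, since the coverings are isomorphic over an algebraic closure.) For `𝒵` the projective
plane and `N = ℓ ^ a` the number is `(ℓ ^ a - 1) (1 + ∑ φ(m))`, a sum over the `Φ_m` which divide the
numerator of the zeta function of the plane curve `B` modulo `ℓ`: if there are none, the Picard number of
`𝒳` over an algebraic closure is at most `ℓ ^ a`, and `C ^ 1` is an isomorphism over all `K'` if it is
equal to `ℓ ^ a` over `K₀`. -/
theorem result (ℓ a n : ℕ) (hℓ : ℓ.Prime) (ha : a ≠ 0) (hn0 : 0 < n) (hn : n.Coprime ℓ)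
    (k : Type) [Field k] [Finite k] (K : Type) [Field K] [NumberField K]
    (χ : MulChar k (𝓞 K)) (hχ : orderOf χ = n * ℓ ^ a)
    (M s : ℕ) (G : Fin s → MvPolynomial (Fin (M + 1)) k) (F : MvPolynomial (Fin (M + 1)) k)
    (L₁ L₂ P : ℤ[X]) (hL : IsZetaQuotient G F L₁ L₂) (hP : IsCoverPolynomial G F (χ ^ ℓ ^ a) n P)
    (t₁ t₂ : Multiset ℕ) (H₁ H₂ : (ZMod ℓ)[X]) (h₁ : Splits ℓ L₁ L₂ t₁ H₁)
    (h₂ : Splits ℓ P 1 t₂ H₂) (hH : NoCyclotomic ℓ (H₁ * H₂)) (c : ℕ) (v : kˣ)
    (Pv : ℤ[X]) (hPv : IsCoverPolynomial G (MvPolynomial.C ((v : k) ^ n) * F) χ (n * ℓ ^ a) Pv)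
    (E V Γ : Type) [Field E] [CharZero E] [IsAlgClosed E] [AddCommGroup V] [Module E V]
    [FiniteDimensional E V] [Group Γ] (ρ : Γ →* (V →ₗ[E] V)) (κ : Γ →* E) (g : Γ)
    (hκ : κ g = (Nat.card k : E) ^ c) (hg : IsFrobeniusPolynomial (ρ g) Pv)
    (U : Subgroup Γ) (hU : U.index ≠ 0) :
    finrank E (tateClasses ρ κ U) ≤
      (ℓ ^ a - 1) * (t₁.map Nat.totient).sum + ℓ ^ a * (t₂.map Nat.totient).sum := by
  have i1 := Pool.Agent.H313.CC.isTn_one (A := 𝓞 K)
  obtain ⟨h0, hgeo⟩ := bound_geo ℓ a n hℓ ha hn0 hn K χ hχ ({1} : Multiset (𝓞 K)) G F L₁ L₂ P hL hP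
    L₁ L₂ P (i1 L₁) (i1 L₂) (i1 P) t₁ t₂ H₁ H₂ h₁ h₂ hH c v Pv Pv hPv (i1 Pv)
  exact (Pool.Agent.H313.GE.finrank_chiSub_le ρ κ U hU g (pow_ne_zero c Nat.card_pos.ne')
    (by rw [hκ, Nat.cast_pow]) h0 hg).trans hgeo

end Pool.Agent.Results.MP_97f789_ag.CyclicCoveringsOnePrime
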