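import Mathlib
import Pool.Agent.TH115.GD.Defs
import Pool.Agent.X243.CD.Pole

/-!
# The Tate conjecture and the Mordell-Weil group for the pullbacks with pure Newton polygons, over all
# number fields

Let `k` be a field with `2 ≠ 0` and `E₀ : y² = x (x² + a x + b)` an elliptic curve over `K₀ = k(s)` with
the following properties (`BaseT`, `CompleteT`), where `d = a² - 4 b` belongs to the isogenous curve:
`b d ≠ 0` and all roots of `b d` are in `k`; each of `b` and `d` has a root of odd multiplicity; and both
first descents over `k(s)` are complete: for all monic squarefree divisors `A` of `b` which satisfy the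
parity condition at `s = ∞` (`InfT`) there is a point `P` in `E₀(k(s))` with `x(P) = A` up to constants
of `k` and squares of `k(s)` (where `x(0, 0)` has to be read as `b`), and the same holds for the
isogenous curve `y² = x (x² - 2 a x + d)` and the divisors of `d`.

Let `L` be an extension field of `k`, for example a number field, `g` a polynomial over `L` in `t` of odd
degree `n`, `n ≠ 0` in `L`, and `E : y² = x (x² + a(g(t)) x + b(g(t)))` the pullback of `E₀` by
`s = g(t)` over `L(t)`. (Its elliptic surface has a geometric genus which grows with `n`.)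

Theorem. (1) Assume that for every root `ξ` of `b d` there is a nonarchimedean absolute value `w` of `L`
such that the Newton polygon of `g - ξ` at `w` is a segment without interior lattice points (`Pure`; for
example `g - ξ` is an Eisenstein polynomial for a prime of `L`). Then

(i) the Tate conjecture for divisors at 2 holds for the elliptic surface of `E` over `L`;

(ii) `E(L(t)) = 2 E(L(t)) + E₀(k(s))`, where `E₀(k(s))` is embedded by `s = g(t)`: every point of `E` over
`L(t)` is `2 Q + P₁ + P₂` with points `P₁`, `P₂` with coordinates in `k(s)` (so the rank of `E(L(t))` for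
a number field `L` is the rank of `E₀(k(s))`);

(iii) if the parity conditions at infinity of `E₀` are empty (`NoInf`: there is no `m` such that
`deg a ≤ 2 m` and `deg b = 4 m` or `deg d = 4 m`), then every class of 2-power order in `H¹(L(t), E)`
which is trivial over the completions of `L(t)` at all finite places is zero.

(2) Let `O` be a Dedekind domain with the field of fractions `L` (for example the ring of integers of a
number field), `V` a maximal ideal, `g` a polynomial over `L` such that all coefficients except the constant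
one are integral at `V`, the leading one is a unit at `V` and the constant one has a pole at `V` of an order
`e > 0` prime to the degree (`PoleAt`), and `ξ` in `L` integral at `V`. Then the Newton polygon of `g - ξ`
at `V` is a segment without interior lattice points.

So the conclusions of (1) hold for ALL such `g` of odd degree `n ≠ 0` in `L` and all `E₀` for which the roots
`ξ` are integral at `V`. For example, for a curve `E₀` over `ℚ(s)` and a prime `p` which does not divide
the denominators of the roots `ξ` they hold for ALL odd `n`, ALL polynomials `h` of degree less than `n` with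
coefficients integral at `p` and ALL number fields `L` in which `p` has a prime divisor with a
ramification index prime to `n`, for the pullback by `s = t ^ n + h(t) + 1 / p`.

(3) The following curves `E₀` have the properties, including `NoInf`: `y² = x (x² + x + s)`;
`y² = x (x² + (w² + α + β - 2 s) x + (s - α) (s - β))` with `w ≠ 0`, `α ≠ β`, with the points
`(s - α, w (s - α))`, `(s - β, w (s - β))`;
`y² = x (x² - 2 ((1 + μ + μ²) s + μ² (1 + μ)²) x + (s + (1 + μ)²) (s + μ² (1 + μ)²) (s + μ²))` with
`μ ≠ 0, -1`, with the points `(c² z, c s z)` for `(c, z) = (μ, s + (1 + μ)²)`,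
`(1, s + μ² (1 + μ)²)`, `(1 + μ, s + μ²)` (of rank two in general).
-/

namespace Pool.Agent.Results.MP_97f789_ag.NewtonPolygonPullbacks

open Polynomial Pool.Agent.TH115.GD Pool.Agent.X243.Gen Pool.Agent.X243.CD Pool.Agent.W309
open IsDedekindDomain
open scoped Classical

/-- The conclusions for the pullback of `y² = x (x² + a x + b)` by `s = g(t)` over `K = L(t)` (`L'` is a
separable closure of `L`, `F = L'(t)`). -/
def Holds {k L : Type} [Field k] [Field L] [Algebra k L] (K₀ L' K F : Type) [Field K₀]
    [Algebra k[X] K₀] [Field L'] [Algebra L L'] [Field K] [Algebra L[X] K]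
    [IsFractionRing L[X] K] [Field F] [Algebra L'[X] F] [IsFractionRing L'[X] F] [Algebra K F]
    (a b : k[X]) (g : L[X]) : Prop :=
  TateAtTwo (F := F) L' (pullCurve K a b g) ∧ PointsFromBase K₀ K a b g ∧
    (NoInf a b → Sha.ShaTwoTrivial L[X] (pullCurve K a b g))

/-- Pullbacks with pure Newton polygons, for the curves over `K₀ = k(s)` and the field `L`. -/
def PurePullbacks (k K₀ L : Type) [Field k] [Field K₀] [Algebra k[X] K₀] [Field L]
    [Algebra k L] : Prop :=
  ∀ (L' K F : Type) [Field L'] [Algebra L L'] [Field K] [Algebra L[X] K]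
    [IsFractionRing L[X] K] [Field F] [Algebra L'[X] F] [IsFractionRing L'[X] F] [Algebra K F],
    IsTower L L' K F → ∀ g : L[X], Odd g.natDegree → (g.natDegree : L) ≠ 0 → ∀ a b : k[X],
      BaseT K₀ a b → (∀ ξ, (b * (a ^ 2 - 4 * b)).IsRoot ξ →
        ∃ w : AbsoluteValue L ℝ, Pure w (g - C (algebraMap k L ξ))) → Holds K₀ L' K F a b g

/-- The examples of curves `y² = x (x² + a x + b)`. -/
def Example {k : Type} [Field k] (a b : k[X]) : Prop :=
  (a = 1 ∧ b = X) ∨
  (∃ w α β : k, w ≠ 0 ∧ α ≠ β ∧ a = C (w ^ 2 + α + β) - 2 * X ∧ b = (X - C α) * (X - C β)) ∨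
  (∃ μ : k, μ ≠ 0 ∧ μ ≠ -1 ∧ a = -2 * (C (1 + μ + μ ^ 2) * X + C (μ * (1 + μ)) ^ 2) ∧
    b = (X + C (1 + μ) ^ 2) * (X + C (μ * (1 + μ)) ^ 2) * (X + C μ ^ 2))

theorem result :
    (∀ (k K₀ L : Type) [Field k] [Field K₀] [Algebra k[X] K₀] [IsFractionRing k[X] K₀] [Field L]
      [Algebra k L], (2 : k) ≠ 0 → PurePullbacks k K₀ L) ∧
    (∀ (O L : Type) [CommRing O] [IsDedekindDomain O] [Field L] [Algebra O L]
      [IsFractionRing O L] (V : HeightOneSpectrum O) (e : ℤ) (g : L[X]) (ξ : L), PoleAt V e g →
      V.valuation L ξ ≤ 1 → ∃ w : AbsoluteValue L ℝ, Pure w (g - C ξ)) ∧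
    (∀ (k K₀ : Type) [Field k] [Field K₀] [Algebra k[X] K₀] [IsFractionRing k[X] K₀],
      (2 : k) ≠ 0 → ∀ a b : k[X], Example a b → BaseT K₀ a b ∧ NoInf a b) := by
  refine ⟨?_, ?_, ?_⟩
  · intro k K₀ L _ _ _ _ _ _ h2 L' K F _ _ _ _ _ _ _ _ _ hT g hn hn0 a b hB hw
    exact newton_pull hT h2 hB hn hn0 hw
  · intro O L _ _ _ _ _ V e g ξ hg hξ
    exact (hg.sub_C hξ).pure
  · rintro k K₀ _ _ _ _ h2 a b (⟨rfl, rfl⟩ | ⟨w, α, β, hw, hαβ, rfl, rfl⟩ | ⟨μ, hμ, hμ1, rfl, rfl⟩)
    · exact baseT0 h2
    · exact baseT1 h2 hw hαβ
    · exact baseT2 h2 hμ hμ1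

end Pool.Agent.Results.MP_97f789_ag.NewtonPolygonPullbacks
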